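import Pool.Agent.R919.AH.Fin

/-!
# MP_4e1cf2_ag: Hodge classes and absolute Hodge classes on the products of an arbitrary variety with
all but few elliptic curves

Let `V j`, for `j` in a set `J` of indices, be polarized rational Hodge structures, for example the
rational cohomology of smooth projective varieties `Y_j`, and let `o` be a distinguished index. The
Hodge structure `M = V o` (the cohomology of a variety `X`) is ARBITRARY. The family of the other
`V j` is an **arbitrary independent family** (`IndependentFamily`): the Lie algebra of the Hodge group of
the sum of finitely many of them is the direct sum of the ones of the single `V j`. It is enough that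
the `V j` without CM part are pairwise `Independent` and the other ones have complex multiplication by
pairwise different quadratic fields; for example `V j = H^1(E_j)` for arbitrary pairwise non-isogenous
elliptic curves `E_j`, with or without complex multiplication.

The theorem: there is a set `S` of at most `dim M / 2` exceptional indices such that, for all the
other ones together with `o`, and for the tensor products of tensor powers of the `V j`:

* all Hodge classes are sums of products of Hodge classes on the tensor powers of the single `V j`;
* all **absolutely Hodge classes** are sums of products of absolutely Hodge classes on the tensor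
  powers of `M` and of Hodge classes on the tensor powers of the other `V j`;
* if all Hodge classes on the tensor powers of `M` are absolutely Hodge classes, then all Hodge classes
  are absolutely Hodge classes.

So, if `X` is any smooth projective variety with total Betti number `b`, and if Q1 is true for the
powers `X^a`, then it is true for all `X^a × E_1^{b_1} × ... × E_r^{b_r}`, as soon as the at most
`b / 2` exceptional elliptic curves are left out. The theorem of Deligne on the Hodge classes on powers
of the elliptic curves is the hypothesis `DeligneFor`. Nothing is assumed on the Hodge group of `X`, and
the set `S` does not depend on the conjugates and comparison isomorphisms.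

The conjugates: a `Conjugate` is the family of the Hodge structures of the conjugate varieties, by an
automorphism `σ` of the complex numbers, with the comparison isomorphisms with coefficients in fields of
characteristic zero (de Rham and `ℓ`-adic cohomology); `𝒞` is any set of such conjugates.

The proof of the second statement. Write an absolutely Hodge class `c` as a sum `∑ x_k e_k` with
linearly independent Hodge classes `e_k` on the part without `M`. The comparisons map the `e_k` to
linearly independent rational classes `e_k'` and `c` to a rational class `c'`, so that the image of
`x_k` is the value of a rational linear form at `c'`, is rational, does not depend on the comparison, and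
is a Hodge class, since `c'` and the `e_k'` are.
-/

namespace Pool.Agent.Results.MP_4e1cf2_ag.FewExceptionalFactors

open Pool.Agent.R919.FE Pool.Agent.R919.AH

theorem result {J : Type} [DecidableEq J] {B : J → Type} [∀ j, Fintype (B j)]
    [∀ j, DecidableEq (B j)] (V : ∀ j, HodgeStructure (B j)) (o : J)
    (h : IndependentFamily V o) :
    ∃ S : Finset J, o ∉ S ∧ 2 * S.card ≤ Fintype.card (B o) ∧
      (∀ (κ : Type) [Fintype κ] [DecidableEq κ] (f : κ → J), (∀ x, f x ∉ S) →
        hodgeClasses V f ≤ ∏ j ∈ Finset.univ.image f, hodgeClassesOf V f j) ∧
      ∀ 𝒞 : Set (Conjugate B), DeligneFor V 𝒞 o S →
        (∀ (κ : Type) [Fintype κ] [DecidableEq κ] (f : κ → J), (∀ x, f x ∉ S) →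
          AbsDecomposes V 𝒞 o f) ∧
        (HodgeIsAbsAt V 𝒞 o → ∀ (κ : Type) [Fintype κ] [DecidableEq κ] (f : κ → J),
          (∀ x, f x ∉ S) → HodgeIsAbs V 𝒞 f) := by
  obtain ⟨S, hS1, hS2, hS3, hS4⟩ := main V h
  exact ⟨S, hS1, hS2, hS3, fun 𝒞 hD => ⟨(hS4 𝒞 hD).1, (hS4 𝒞 hD).2.1⟩⟩

end Pool.Agent.Results.MP_4e1cf2_ag.FewExceptionalFactors
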