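import Mathlib
import Pool.Agent.R913.Ind.Abs

/-!
# Hodge classes on the product of an abelian variety and a variety with independent periods

Let `A` be a principally polarized abelian variety with the period matrix `Z` (up to isogeny this is
any complex abelian variety), `D = DZ Z` its Hodge operator, a complex matrix which acts on the
complex homology of `A` with the eigenvalues `1` and `-1` on the parts of the Hodge decomposition,
and let `Y` be any smooth projective complex variety, given by the Hodge operator `V.z`
(multiplication by `p - q` on `H^(p, q)(Y)`) in a rational basis of its cohomology.

Let `P(A)` and `P(Y)` be the spans over `ℚ` (not over a field) of the entries of the two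
Hodge operators. A *common part* is a complex matrix `X` with entries in the intersection of `P(A)`
and `P(Y)`, of the form `c D + z` with `c` and `z` in `ℂ ⊗ centre of End(A)`, which commutes with all
conjugates of `D - X`; if the Hodge group of `A` is semisimple (if the trace of `c D` is zero for all
`c` in the centre) we require moreover that `X = e D` for an idempotent `e`.

*Theorem.* Suppose that `0` is the only common part of `A` and `Y`. Then, for all `n`:

(1) every Hodge class on `A ^ n × Y` is a sum of products of a Hodge class on `A ^ n` and a Hodge
class on `Y`;

(2) all Hodge classes on `A ^ n × Y` are absolutely Hodge if and only if all Hodge classes on `Y` are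
absolutely Hodge. (The theorem of Deligne, that the Hodge classes on `A ^ n` are absolutely Hodge, is
used in the form of the first property of an `AbsSystem`.)

Nothing else is assumed about `A` and `Y`: there is no condition on the Hodge group of `A`, on
its dimension, or on its endomorphisms, the Hodge classes on `A ^ n` may be exceptional, and `Y` is
arbitrary. Examples (not part of the formal statement): `P(A) ∩ P(Y) = 0`; or `End(A) = ℤ` and one
entry of the Hodge operator of `A` is not a rational linear combination of the entries of the Hodge
operator of `Y`; or `A` is simple, with a semisimple Hodge group whose Lie algebra is simple over `ℚ`,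
and is not defined over the field of periods of `Y` in this sense.

*Proof.* Let `S` be a rational subspace of the tensors which is stable under the sum of the two Hodge
operators, and `k` the ideal of the elements of the Hodge Lie algebra of `A` which stabilize `S`.
By the positivity of the polarization the Hodge Lie algebra is the sum of `k` and the orthogonal ideal
`k'`; write `D = D₁ + D₂`. If a rational linear map `f : ℂ → ℂ` vanishes on `P(Y)` then `f(D)`
stabilizes `S`, so `f(D₂)` is in `k` and in `k'` and is zero; so the entries of `D₂` are in `P(Y)`
(and similarly in `P(A)`). The homology of `A` is the sum of a part where `D₁` is a multiple of `D`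
up to central elements and a part where this holds for `D₂`: on an irreducible representation of
`k ⊕ k'`, a tensor product of representations of `k` and `k'`, `D = D₁ ⊗ 1 + 1 ⊗ D₂` has only two
eigenvalues, so one of the two summands is a scalar. Hence `D₂` is a common part, and is zero. So `S`
is stable under `D`, which gives (1) for the line spanned by a Hodge class; and (2) follows from (1)
by the integrals over the fibres of the projection of `A ^ n × Y` to `Y`.
-/

namespace Pool.Agent.Results.MP_4e1cf2_ag.IndependentFactor

open Pool.Agent.H204R3.CM Pool.Agent.W437.HC Pool.Agent.TH131.GHC Pool.Agent.TH504.VY
  Pool.Agent.R913.Ind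

/-- **Independent factors**: if the abelian variety `A` with the period matrix `Z` and the variety `Y`
have no common part then the Hodge classes on `A ^ n × Y` are sums of products of Hodge classes on
`A ^ n` and on `Y`, and they are all absolutely Hodge if and only if all Hodge classes on `Y` are
absolutely Hodge. -/
theorem result {g v : ℕ} (Z : Matrix (Fin g) (Fin g) ℂ) (hZ : Z.transpose = Z)
    (hpos : (Z.map Complex.im).PosDef) (Y : Coh v)
    (h : ∀ X, IsCommonPart (DZ Z) (entrySpan Y.z) X → X = 0) (n : ℕ) :
    HodgeAreProducts (powPer Z n) Y ∧ AbsReducesToY (powPer Z n) Y := by
  have hI : Indep (DZ Z) Y.z :=
    indep (polOf hZ hpos) (W := entrySpan Y.z)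
      (fun i j => Submodule.subset_span ⟨i, j, rfl⟩) h
  exact ⟨fun F hF => mem_crossSpan hZ hpos Y hI hF, fun S => abs_iff hZ hpos Y hI S⟩

end Pool.Agent.Results.MP_4e1cf2_ag.IndependentFactor
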