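import Pool.Agent.R936.Arb.AbsMain

/-!
# Absolutely Hodge classes on products with varieties of CM type

Let `X i`, `i ∈ I`, be a family (finite or infinite) of smooth projective complex varieties of CM type
and suppose that the Hodge group of the sum of the Hodge structures `H(X i)` is of dimension at most
`R`. (For instance, if all these Hodge structures are split by one CM field of degree `2 g`, then `R` is
at most `g`.)

*Theorem.* Suppose that all Hodge classes on the products in which at most `R + 1` different members
of the family occur, each of them arbitrarily often, are absolutely Hodge. (For abelian varieties this
is the theorem of Deligne.) Then: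

(1) All Hodge classes on all products of members of the family are absolutely Hodge.

(2) There is one product `Y` of members of the family such that, for every smooth projective variety
`Z`, of any kind: all Hodge classes on all products `Z × X i₁ × ⋯ × X iₙ` are absolutely Hodge if
and only if all Hodge classes on `Z × Y ^ (dim Z)` are absolutely Hodge (for `dim Z = 0` read `Z × Y`).

So, for abelian varieties of CM type with a common splitting field, whether all Hodge classes on the
products `Z × A₁ × ⋯ × Aₙ` are absolutely Hodge is for each variety `Z` a question about one product,
of dimension at most `(1 + c) dim Z`, where `c = dim Y` does not depend on `Z`.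

*Proof.* Let `L` be a Galois extension of `ℚ` over which the cohomology of the `X i` has bases of
eigenvectors, with vectors `v = (p - q)_σ` of integers, indexed by the embeddings `σ` of `L`. A product
of eigenvectors is a Hodge class (with coefficients in `L`) if and only if the sum of their vectors
vanishes. The group of the relations between the vectors is generated by relations with at most `R + 1`
nonzero coefficients, and contraction with dual classes gives (1). By the lemma of Dickson there are
finitely many words in the eigenvectors such that every vector of a word with entries bounded by `n`
is the sum of the vectors of at most `n` of them. These words occur on one product `Y`. A Hodge class on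
`Z × P` is over `L` a sum of classes `z ⊗ w`, where `w` is a word of `P`; the entries of the vector of
`w` are bounded by `dim Z`. So there is a word `w'` on `Y ^ (dim Z)` with the same vector, and the
class `z ⊗ w` is the composition of `z ⊗ w'` with a Hodge class on the product of `Y ^ (dim Z)` and `P`,
which is absolutely Hodge by (1).
-/

open CategoryTheory AlgebraicGeometry

universe u w

namespace Pool.Agent.Results.MP_4e1cf2_ag.ProductsWithCMVarieties

open Pool.Agent.H914 Pool.Agent.Y121.AHS Pool.Agent.R940 Pool.Agent.R936.Arb.Ab VarClass Obj
  WeilCohomology

/-- **Absolutely Hodge classes on products with varieties of CM type**: for a family of varieties of CM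
type with a Hodge group of dimension at most `R`, for which the Hodge classes on the products with at
most `R + 1` different factors are absolutely Hodge, all Hodge classes on the products of its members
are absolutely Hodge, and there is one product `Y` of members such that, for every variety `Z`, the
product `Z × Y ^ (dim Z)` decides for all products of `Z` with members of the family. -/
theorem result {k : Type u} [Field k] {𝒱 : VarClass k} {ops : CycleOps 𝒱} (T : HodgeTheory ops)
    (D : Conjugates T) (hpos : NonnegTypes T) {I : Type w} [Nonempty I] (X : I → 𝒱.Obj)
    (hX : ∀ i, IsCM T (X i)) (R : ℕ) (hR : HgDimLe T X R)
    (h : ∀ i L, (∃ F : Finset I, F.card ≤ R + 1 ∧ ∀ j ∈ i :: L, j ∈ F) →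
      HodgeAbs D (prodOf X i L)) :
    (∀ i L, HodgeAbs D (prodOf X i L)) ∧
    ∃ (i0 : I) (L0 : List I), ∀ Z : 𝒱.Obj,
      HodgeAbs D (Z.prod (powerOf X i0 L0 Z.dim)) ↔ ∀ i L, HodgeAbs D (Z.prod (prodOf X i L)) :=
  abs_main D hpos hX hR h

end Pool.Agent.Results.MP_4e1cf2_ag.ProductsWithCMVarieties
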