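import Pool.Agent.R696.TF.Conj

/-!
# Hodge classes and absolute Hodge classes on schemes of finite type, and trilinear forms

For a separated scheme `X` of finite type over `ℂ` and integers `i`, `j` let `V` be the graded piece
`gr^W_{-2j} H_i(X, ℚ)(-j)` of Borel-Moore homology, a rational Hodge structure of weight zero. For an
automorphism `σ` of `ℂ` let `V' σ` be the space `V` of the conjugate scheme `X^σ`; the relation
`conj σ` consists of the pairs `(v, v')` such that the de Rham component and the étale component of
`v'` are the conjugates of those of `v`. A Hodge class `v` is absolute Hodge if for every `σ` there is a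
Hodge class `v'` with `(v, v')` in `conj σ` (Deligne). The structure `ConjTheory` lists the properties
of these spaces which are used, see `Pool/Agent/R696/TF/Conj.lean`; all of them are theorems. For the
exactness for the pairs of a Hodge class and its conjugate (`ConjObj.Exact`): by Deligne's construction
of the weight filtration the triples (`V`, `V' σ`, comparison) are subquotients of the cohomology of
smooth projective schemes, by maps given by algebraic cycles, so they are polarizable by forms which
correspond to each other; the category of these triples is semisimple, and the pairs are the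
morphisms from the unit object.

`HodgeIsAbsolute H X` says that every Hodge class in these spaces, for all `i`, `j`, is absolute Hodge.
For smooth projective `X` of dimension `d` these are the Hodge classes in `H^{2(d-j)}(X, ℚ(d-j))`, so
Q1 says that `HodgeIsAbsolute H X` holds for all smooth projective `X`.

Let `S` be the class of the smooth projective schemes. By resolution of singularities every smooth `X`
of dimension at most `d` is birational to a member of `S` of dimension at most `d` (`Models`). By the
Lefschetz theorem on classes of type `(1, 1)` and the hard Lefschetz theorem Hodge classes on smooth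
projective varieties of dimension at most three are algebraic, which implies `hlow`.

The hypersurface of a trilinear form `T` is the affine cubic hypersurface `T(x, y, z) = 1` (`hypS T`),
`x`, `y`, `z` being three blocks of variables of any sizes. It is smooth.
-/

set_option autoImplicit false

open CategoryTheory AlgebraicGeometry Pool.Agent.R696.TF Pool.Agent.Y116.UV

namespace Pool.Agent.Results.MP_4e1cf2_ag.TrilinearForms

/-- Every Hodge class in the homology of `X` is an absolute Hodge class: for every automorphism `σ` of
`ℂ` it has a conjugate which is a Hodge class. -/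
def HodgeIsAbsolute (H : ConjTheory ℂ (ℂ ≃+* ℂ)) (X : Sch ℂ) : Prop :=
  ∀ (i j : ℤ), ∀ v ∈ (H.obj i j X).hodge, ∀ σ : ℂ ≃+* ℂ,
    ∃ v' ∈ (H.obj i j X).hodge' σ, (v, v') ∈ (H.obj i j X).conj σ

/-- **Absolute Hodge classes and trilinear forms.**
1. The following are equivalent: every Hodge class on a smooth projective scheme is absolute Hodge
   (Q1); the same for the Hodge classes in the homology of all schemes; the same for the
   hypersurfaces `T(x, y, z) = 1` of all trilinear forms.
2. For every `d` the following are equivalent: the Hodge classes on the smooth projective schemes of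
   dimension at most `d` are absolute Hodge; the same for all schemes of dimension at most `d`; the
   same for the hypersurfaces of the trilinear forms with a block of at most `d + 2` variables.
3. The Hodge classes in the homology of the hypersurfaces of the trilinear forms with a block of at
   most five variables are absolute Hodge.
4. The hypersurfaces are smooth. -/
theorem result (H : ConjTheory ℂ (ℂ ≃+* ℂ)) (S : Sch ℂ → Prop) (hpoint : S (aff ℂ ℂ))
    (hS : Models S)
    (hlow : ∀ X : Sch ℂ, FT True X → S X → topologicalKrullDim X.left ≤ (3 : ℕ) →
      HodgeIsAbsolute H X) :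
    ([∀ X : Sch ℂ, FT True X → S X → HodgeIsAbsolute H X,
      ∀ X : Sch ℂ, FT True X → HodgeIsAbsolute H X,
      ∀ (a b c : ℕ) (T : Fin a → Fin b → Fin c → ℂ), HodgeIsAbsolute H (hypS T)].TFAE) ∧
    (∀ d : ℕ, [∀ X : Sch ℂ, FT True X → S X → topologicalKrullDim X.left ≤ d →
        HodgeIsAbsolute H X,
      ∀ X : Sch ℂ, FT True X → topologicalKrullDim X.left ≤ d → HodgeIsAbsolute H X,
      ∀ (a b c : ℕ) (T : Fin a → Fin b → Fin c → ℂ), (a ≤ d + 2 ∨ b ≤ d + 2 ∨ c ≤ d + 2) →
        HodgeIsAbsolute H (hypS T)].TFAE) ∧
    (∀ (a b c : ℕ) (T : Fin a → Fin b → Fin c → ℂ), (a ≤ 5 ∨ b ≤ 5 ∨ c ≤ 5) →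
      HodgeIsAbsolute H (hypS T)) ∧
    ∀ (a b c : ℕ) (T : Fin a → Fin b → Fin c → ℂ), Smooth (hypS T).hom := by
  have hE : ∀ X : Sch ℂ,
      HodgeIsAbsolute H X ↔ All (fun i j X => ∀ σ, (H.obj i j X).AllConj σ) X := by
    intro X
    refine forall_congr' fun i => forall_congr' fun j => ?_
    constructor
    · intro h σ v hv
      obtain ⟨v', h1, h2⟩ := h v hv σ
      exact ⟨v', hv, h1, h2⟩
    · intro h v hv σ
      obtain ⟨v', _, h1, h2⟩ := h σ v hv
      exact ⟨v', h1, h2⟩
  have hft : FT True (aff ℂ ℂ) := ft_aff True
  have hdim0 : topologicalKrullDim (aff ℂ ℂ).left = 0 := by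
    rw [Pool.Agent.Z125.UN.topDim_aff]
    exact ringKrullDim_eq_zero_of_field ℂ
  simp only [hE] at hlow ⊢
  have hpt : ∀ i j : ℤ, ∀ σ, (H.obj i j (aff ℂ ℂ)).AllConj σ := by
    refine hlow _ hft hpoint ?_
    rw [hdim0]
    exact_mod_cast Nat.zero_le 3
  have hM := Mid.forall fun σ => H.mid σ fun i j => hpt i j σ
  refine ⟨hM.main_all hS, hM.main_dim hS, ?_, fun _ _ _ _ => Pool.Agent.Z125.UN.smooth_hypS _⟩
  have h1 : ClassLe S _ 3 ↔ Block _ (3 + 2) := (hM.main_dim hS 3).out 0 2
  exact h1.1 hlow

end Pool.Agent.Results.MP_4e1cf2_ag.TrilinearForms
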